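import Pool.Agent.Lib.MP_a7508c_ag.Final

/-!
# MP_a7508c_ag: a birationally superrigid Fano variety which is not K-stable

The definitions used by the statement are in `Pool/Agent/Lib/MP_a7508c_ag/Statement.lean`.

The example is the hypersurface
`x_0^5040 + x_1^7 + x_2^8 + x_3^9 + x_4^10 + x_5^12 + x_6^14 + x_7^14 + x_8^15 + x_9^16 + x_10^16 +
x_11^18 + x_12^20 = 0` in `P(1,720,630,560,504,420,360,360,336,315,315,280,252)`, of dimension `11`
and index `13`; the divisor `x_0 = 0` violates the valuative criterion for K-stability.
-/

set_option autoImplicit false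

open Pool.Agent.Lib.MPa7508c

namespace Pool.Agent.Results.MP_a7508c_ag.SuperrigidUnstable

/-- There is a birationally superrigid Fano variety `V` of dimension `11` (with canonical divisor
the divisor of the rational form `η`) which is not K-stable. -/
theorem result : ∃ (V : CVar) (η : TopForm V.K 11), V.IsFano 10 η ∧
    IsSuperrigid V.locals 10 η ∧ ¬ IsKStable V.locals 10 η :=
  Pool.Agent.Lib.MPa7508c.main

end Pool.Agent.Results.MP_a7508c_ag.SuperrigidUnstable
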